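import Pool.Agent.helper71.AA.Defs

/-! # Project AA, module F2: the numerical inequality -/

namespace Pool.Agent.helper71.AA

open Finset

theorem F2_log_le (x b : ℝ) (hx : 0 < x) (hb : 0 ≤ b)
    (h : x ≤ ∑ i ∈ range 8, b ^ i / (i.factorial : ℝ)) : Real.log x ≤ b := by
  rw [Real.log_le_iff_le_exp hx]
  exact h.trans (Real.sum_le_exp_of_nonneg hb 8)

/-- the numerical inequality -/
theorem num_ineq (δ : ℝ) : 0.166 + ∑ i ∈ ({1, 2, 3} : Finset (Fin 4)), κe i * (ρe i *
    (Real.log (βe i / αe δ i) - (βe i - αe δ i) / 0.43)) + 0.006 ≤ lam * 0.166 := by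
  have h1 : Real.log (0.26 / 0.166) ≤ 0.4488 := by
    apply F2_log_le _ _ (by norm_num) (by norm_num)
    norm_num [Finset.sum_range_succ, Nat.factorial]
  have h2 : Real.log (0.35 / 0.26) ≤ 0.2973 := by
    apply F2_log_le _ _ (by norm_num) (by norm_num)
    norm_num [Finset.sum_range_succ, Nat.factorial]
  have h3 : Real.log (0.43 / 0.35) ≤ 0.2059 := by
    apply F2_log_le _ _ (by norm_num) (by norm_num)
    norm_num [Finset.sum_range_succ, Nat.factorial]
  have hsum : ∑ i ∈ ({1, 2, 3} : Finset (Fin 4)), κe i * (ρe i *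
      (Real.log (βe i / αe δ i) - (βe i - αe δ i) / 0.43)) =
      (1.01 * 0.166 / 0.119) ^ 2 * (0.119 * (Real.log (0.26 / 0.166) - (0.26 - 0.166) / 0.43)) +
      ((1.01 * 0.166 / 0.074) ^ 2 * (0.074 * (Real.log (0.35 / 0.26) - (0.35 - 0.26) / 0.43)) +
      (1.01 * 0.166 / 0.034) ^ 2 * (0.034 * (Real.log (0.43 / 0.35) - (0.43 - 0.35) / 0.43))) := by
    rw [Finset.sum_insert (by decide), Finset.sum_insert (by decide), Finset.sum_singleton]
    have e1 : (1 : Fin 4) ≠ 0 := by decide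
    have e2 : (2 : Fin 4) ≠ 0 := by decide
    have e3 : (3 : Fin 4) ≠ 0 := by decide
    unfold κe
    rw [if_neg e1, if_neg e2, if_neg e3]
    rfl
  rw [hsum]
  unfold lam
  norm_num at h1 h2 h3 ⊢
  linarith

end Pool.Agent.helper71.AA
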